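import Mathlib
set_option autoImplicit false

/-!
# Acyclic unique sink orientations of the cube: three constructions

`AOF f`: on every face the function `f` has exactly one local maximum.
`Hyp f A v`: in the face of all `u` that agree with `v` on `A`, all edges leaving the face come in.
-/

namespace Pool.Agent.TH70.AR

open Finset

variable {n : ℕ}

/-- the neighbour of `x` in direction `i` -/
def flip (x : Fin n → Bool) (i : Fin n) : Fin n → Bool := Function.update x i (!x i)

lemma flip_self (x : Fin n → Bool) (i : Fin n) : flip x i i = !x i := by simp [flip]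

lemma flip_of_ne (x : Fin n → Bool) {i j : Fin n} (h : j ≠ i) : flip x i j = x j := by
  simp [flip, h]

lemma flip_flip (x : Fin n → Bool) (i : Fin n) : flip (flip x i) i = x := by
  funext j
  by_cases h : j = i
  · subst h; simp [flip_self]
  · rw [flip_of_ne _ h, flip_of_ne _ h]

/-- one local maximum on every face -/
def AOF (f : (Fin n → Bool) → ℕ) : Prop :=
  ∀ (F : Finset (Fin n)) (x : Fin n → Bool), ∃! y : Fin n → Bool,
    (∀ i, i ∉ F → y i = x i) ∧ ∀ i ∈ F, f (flip y i) < f y

/-- the edges leaving the face `{u = v on A}` come in -/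
def Hyp (f : (Fin n → Bool) → ℕ) (A : Finset (Fin n)) (v : Fin n → Bool) : Prop :=
  ∀ u : Fin n → Bool, (∀ i ∈ A, u i = v i) → ∀ i ∈ A, f (flip u i) < f u

lemma AOF.ne {f : (Fin n → Bool) → ℕ} (hf : AOF f) (x : Fin n → Bool) (i : Fin n) :
    f (flip x i) ≠ f x := by
  obtain ⟨y, ⟨h1, h2⟩, -⟩ := hf {i} x
  have h3 := h2 i (mem_singleton_self i)
  have h4 : y = x ∨ y = flip x i := by
    by_cases h : y i = x i
    · left
      funext j
      by_cases hj : j = i
      · rw [hj, h]
      · exact h1 j (by simpa using hj)
    · right
      funext j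
      by_cases hj : j = i
      · subst hj
        rw [flip_self]
        cases hx : x j <;> cases hy : y j <;> simp_all
      · rw [flip_of_ne _ hj]; exact h1 j (by simpa using hj)
  rcases h4 with h4 | h4
  · subst h4; exact h3.ne
  · subst h4
    rw [flip_flip] at h3
    exact h3.ne'

/-- number of agreements -/
def agr (u v : Fin n → Bool) : ℕ := (univ.filter fun i => u i = v i).card

lemma agr_flip_lt {u v : Fin n → Bool} {i : Fin n} (h : u i = v i) :
    agr (flip u i) v < agr u v := by
  apply card_lt_card
  rw [ssubset_iff_subset_ne]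
  refine ⟨fun j hj => ?_, fun h1 => ?_⟩
  · simp only [mem_filter, mem_univ, true_and] at hj ⊢
    by_cases hji : j = i
    · rw [hji]; exact h
    · rwa [flip_of_ne _ hji] at hj
  · have h2 : i ∈ univ.filter fun i => u i = v i := by simp [h]
    rw [← h1] at h2
    simp only [mem_filter, mem_univ, true_and, flip_self] at h2
    rw [h] at h2
    simp at h2

lemma agr_flip_gt {u v : Fin n → Bool} {i : Fin n} (h : u i ≠ v i) :
    agr u v < agr (flip u i) v := by
  have h1 : flip u i i = v i := by
    rw [flip_self]; cases hu : u i <;> cases hv : v i <;> simp_all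
  have := agr_flip_lt h1
  rwa [flip_flip] at this

lemma agr_flip_lt_iff {u v : Fin n → Bool} {i : Fin n} :
    agr u v < agr (flip u i) v ↔ u i ≠ v i := by
  constructor
  · intro h h1
    exact absurd (agr_flip_lt h1) (by omega)
  · exact agr_flip_gt

lemma agr_le (u v : Fin n → Bool) : agr u v ≤ n := by
  unfold agr
  exact (card_le_univ _).trans (by simp)

/-- the vertex of the face of `x` with free directions `F` closest to `v` -/
def near (F : Finset (Fin n)) (x v : Fin n → Bool) : Fin n → Bool :=
  fun i => if i ∈ F then v i else x i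

/-- replace `f` by the larger function `g` on `P` -/
def stack (P : (Fin n → Bool) → Prop) [DecidablePred P] (g f : (Fin n → Bool) → ℕ) :
    (Fin n → Bool) → ℕ :=
  fun u => if P u then g u + (1 + ∑ x, f x) else f u

section stack

variable {P : (Fin n → Bool) → Prop} [DecidablePred P] {g f : (Fin n → Bool) → ℕ}

lemma le_sum (f : (Fin n → Bool) → ℕ) (u : Fin n → Bool) : f u ≤ ∑ x, f x :=
  single_le_sum (f := f) (fun _ _ => Nat.zero_le _) (mem_univ u)

lemma stack_pos {u : Fin n → Bool} (h : P u) : stack P g f u = g u + (1 + ∑ x, f x) := if_pos h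

lemma stack_neg {u : Fin n → Bool} (h : ¬ P u) : stack P g f u = f u := if_neg h

lemma stack_lt {u v : Fin n → Bool} (hu : ¬ P u) (hv : P v) : stack P g f u < stack P g f v := by
  rw [stack_neg hu, stack_pos hv]
  have := le_sum f u
  omega

lemma stack_lt_pos {u v : Fin n → Bool} (hu : P u) (hv : P v) :
    stack P g f u < stack P g f v ↔ g u < g v := by
  rw [stack_pos hu, stack_pos hv]; omega

lemma stack_lt_neg {u v : Fin n → Bool} (hu : ¬ P u) (hv : ¬ P v) :
    stack P g f u < stack P g f v ↔ f u < f v := by
  rw [stack_neg hu, stack_neg hv]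

end stack

/-- the face `{u = b on X}` -/
def On (X : Finset (Fin n)) (b : Fin n → Bool) (u : Fin n → Bool) : Prop := ∀ i ∈ X, u i = b i

instance (X : Finset (Fin n)) (b : Fin n → Bool) : DecidablePred (On X b) := fun _ => by
  unfold On; infer_instance

lemma On.flip {X : Finset (Fin n)} {b u : Fin n → Bool} {i : Fin n} (h : On X b u) (hi : i ∉ X) :
    On X b (flip u i) := by
  intro j hj
  rw [flip_of_ne _ (by rintro rfl; exact hi hj)]
  exact h j hj

lemma off_flip {F : Finset (Fin n)} {x w : Fin n → Bool} {i : Fin n}
    (hw : ∀ i, i ∉ F → w i = x i) (hi : i ∈ F) : ∀ j, j ∉ F → AR.flip w i j = x j := by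
  intro j hj
  rw [flip_of_ne _ (by rintro rfl; exact hj hi)]
  exact hw j hj

/-- **Reorientation of a hypersink.** -/
lemma AOF.stackOn {f g : (Fin n → Bool) → ℕ} (hf : AOF f) (hg : AOF g) {X : Finset (Fin n)}
    {b : Fin n → Bool} (hX : Hyp f X b) : AOF (stack (On X b) g f) := by
  classical
  intro F x
  by_cases hmeet : ∃ z : Fin n → Bool, (∀ i, i ∉ F → z i = x i) ∧ On X b z
  · -- the face meets the hypersink
    obtain ⟨z, hz1, hz2⟩ := hmeet
    -- the part of the face in the hypersink is the face of `z` with directions `F \ X`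
    obtain ⟨y, ⟨hy1, hy2⟩, hy3⟩ := hg (F \ X) z
    have hyX : On X b y := fun i hi => by
      rw [hy1 i (by simp [hi])]; exact hz2 i hi
    refine ⟨y, ⟨fun i hi => ?_, fun i hi => ?_⟩, ?_⟩
    · rw [hy1 i (by simp [hi]), hz1 i hi]
    · by_cases hiX : i ∈ X
      · apply stack_lt _ hyX
        intro h
        have h1 := h i hiX
        rw [flip_self, hyX i hiX] at h1
        simp at h1
      · have h1 : On X b (flip y i) := hyX.flip hiX
        rw [stack_lt_pos h1 hyX]
        exact hy2 i (by simp [hi, hiX])
    · rintro w ⟨hw1, hw2⟩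
      by_cases hwX : On X b w
      · apply hy3
        refine ⟨fun i hi => ?_, fun i hi => ?_⟩
        · by_cases hiX : i ∈ X
          · rw [hwX i hiX, hz2 i hiX]
          · have : i ∉ F := fun h => hi (by simp [h, hiX])
            rw [hw1 i this, hz1 i this]
        · rw [mem_sdiff] at hi
          have h1 : On X b (flip w i) := hwX.flip hi.2
          have := hw2 i hi.1
          rwa [stack_lt_pos h1 hwX] at this
      · -- `w` would be a second local maximum of `f`
        exfalso
        obtain ⟨m, ⟨hm1, hm2⟩, -⟩ := hf (F \ X) z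
        have hmX : On X b m := fun i hi => by
          rw [hm1 i (by simp [hi])]; exact hz2 i hi
        obtain ⟨m', -, hm'⟩ := hf F x
        have e1 : m = m' := by
          apply hm'
          refine ⟨fun i hi => ?_, fun i hi => ?_⟩
          · rw [hm1 i (by simp [hi]), hz1 i hi]
          · by_cases hiX : i ∈ X
            · exact hX m hmX i hiX
            · exact hm2 i (by simp [hi, hiX])
        have e2 : w = m' := by
          apply hm'
          refine ⟨hw1, fun i hi => ?_⟩
          have h1 := hw2 i hi
          by_cases h2 : On X b (flip w i)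
          · exact absurd (stack_lt (g := g) (f := f) hwX h2) (by omega)
          · rwa [stack_lt_neg h2 hwX] at h1
        exact hwX (e2.trans e1.symm ▸ hmX)
  · -- the face misses the hypersink
    push Not at hmeet
    obtain ⟨y, ⟨hy1, hy2⟩, hy3⟩ := hf F x
    have key : ∀ w : Fin n → Bool, (∀ i, i ∉ F → w i = x i) → ∀ i ∈ F,
        (stack (On X b) g f (flip w i) < stack (On X b) g f w ↔ f (flip w i) < f w) := by
      intro w hw i hi
      exact stack_lt_neg (hmeet _ (off_flip hw hi)) (hmeet _ hw)
    refine ⟨y, ⟨hy1, fun i hi => (key y hy1 i hi).2 (hy2 i hi)⟩, ?_⟩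
    rintro w ⟨hw1, hw2⟩
    exact hy3 w ⟨hw1, fun i hi => (key w hw1 i hi).1 (hw2 i hi)⟩

/-- **Uniform reorientation above.** If `P` is closed under steps towards `v`, and every vertex of `P`
lies in a hypersink of `f` contained in `P`, then making `P` uniform towards `v` is allowed. -/
lemma AOF.stackUniform {f : (Fin n → Bool) → ℕ} (hf : AOF f) {P : (Fin n → Bool) → Prop}
    [DecidablePred P] {v : Fin n → Bool}
    (hup : ∀ u i, P u → u i ≠ v i → P (flip u i))
    (hH : ∀ u, P u → ∃ A, Hyp f A v ∧ On A v u ∧ ∀ z, On A v z → P z) :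
    AOF (stack P (fun u => agr u v) f) := by
  classical
  intro F x
  have hcl : ∀ z : Fin n → Bool, (∀ i, i ∉ F → z i = x i) → P z → P (near F x v) := by
    -- induct on the number of disagreements on F
    intro z
    induction hk : (F.filter fun i => z i ≠ v i).card using Nat.strong_induction_on generalizing z with
    | _ k ih =>
      intro hz hPz
      by_cases h : ∃ i ∈ F, z i ≠ v i
      · obtain ⟨i, hi, hne⟩ := h
        refine ih _ ?_ (flip z i) rfl ?_ (hup z i hPz hne)
        · rw [← hk]
          apply card_lt_card
          rw [ssubset_iff_subset_ne]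
          refine ⟨fun j hj => ?_, fun h1 => ?_⟩
          · rw [mem_filter] at hj ⊢
            refine ⟨hj.1, ?_⟩
            by_cases hji : j = i
            · rw [hji]; exact hne
            · have := hj.2
              rwa [flip_of_ne _ hji] at this
          · have h2 : i ∈ F.filter fun i => z i ≠ v i := by simp [hi, hne]
            rw [← h1, mem_filter, flip_self] at h2
            have h3 := h2.2
            cases hz' : z i <;> cases hv' : v i <;> simp_all
        · exact off_flip hz hi
      · push Not at h
        have : z = near F x v := by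
          funext i
          unfold near
          split_ifs with hi
          · exact h i hi
          · exact hz i hi
        rw [← this]; exact hPz
  by_cases hmeet : ∃ z : Fin n → Bool, (∀ i, i ∉ F → z i = x i) ∧ P z
  · obtain ⟨z, hz1, hz2⟩ := hmeet
    have hc := hcl z hz1 hz2
    have hnear : ∀ i ∈ F, near F x v i = v i := fun i hi => by simp [near, hi]
    refine ⟨near F x v, ⟨fun i hi => by simp [near, hi], fun i hi => ?_⟩, ?_⟩
    · by_cases h : P (flip (near F x v) i)
      · rw [stack_lt_pos h hc]
        exact agr_flip_lt (hnear i hi)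
      · exact stack_lt h hc
    · rintro w ⟨hw1, hw2⟩
      by_cases hwP : P w
      · funext i
        unfold near
        split_ifs with hi
        · by_contra hne
          have h1 := hup w i hwP hne
          have h2 := hw2 i hi
          rw [stack_lt_pos h1 hwP] at h2
          exact absurd (agr_flip_gt hne) (by omega)
        · exact hw1 i hi
      · exfalso
        obtain ⟨m', -, hm'⟩ := hf F x
        obtain ⟨A, hA1, hA2, hA3⟩ := hH z hz2
        obtain ⟨m, ⟨hm1, hm2⟩, -⟩ := hf (F \ A) z
        have hmA : On A v m := fun i hi => by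
          rw [hm1 i (by simp [hi])]; exact hA2 i hi
        have e1 : m = m' := by
          apply hm'
          refine ⟨fun i hi => ?_, fun i hi => ?_⟩
          · rw [hm1 i (by simp [hi]), hz1 i hi]
          · by_cases hiA : i ∈ A
            · exact hA1 m hmA i hiA
            · exact hm2 i (by simp [hi, hiA])
        have e2 : w = m' := by
          apply hm'
          refine ⟨hw1, fun i hi => ?_⟩
          have h1 := hw2 i hi
          by_cases h2 : P (flip w i)
          · exact absurd (stack_lt (g := fun u => agr u v) (f := f) hwP h2) (by omega)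
          · rwa [stack_lt_neg h2 hwP] at h1
        exact hwP (e2.trans e1.symm ▸ hA3 m hmA)
  · push Not at hmeet
    obtain ⟨y, ⟨hy1, hy2⟩, hy3⟩ := hf F x
    have key : ∀ w : Fin n → Bool, (∀ i, i ∉ F → w i = x i) → ∀ i ∈ F,
        (stack P (fun u => agr u v) f (flip w i) < stack P (fun u => agr u v) f w ↔
          f (flip w i) < f w) := by
      intro w hw i hi
      exact stack_lt_neg (hmeet _ (off_flip hw hi)) (hmeet _ hw)
    refine ⟨y, ⟨hy1, fun i hi => (key y hy1 i hi).2 (hy2 i hi)⟩, ?_⟩
    rintro w ⟨hw1, hw2⟩
    exact hy3 w ⟨hw1, fun i hi => (key w hw1 i hi).1 (hw2 i hi)⟩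

/-- the uniform orientation -/
lemma AOF.uniform (v : Fin n → Bool) : AOF (fun u => agr u v) := by
  intro F x
  refine ⟨near F x v, ⟨fun i hi => by simp [near, hi], fun i hi => ?_⟩, ?_⟩
  · exact agr_flip_lt (by simp [near, hi])
  · rintro w ⟨hw1, hw2⟩
    funext i
    unfold near
    split_ifs with hi
    · by_contra hne
      have h2 : agr (flip w i) v < agr w v := hw2 i hi
      exact absurd (agr_flip_gt hne) (by omega)
    · exact hw1 i hi

lemma hyp_uniform (A : Finset (Fin n)) (v : Fin n → Bool) : Hyp (fun u => agr u v) A v :=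
  fun _ hu i hi => agr_flip_lt (hu i hi)

end Pool.Agent.TH70.AR
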