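import Pool.Agent.TH70.AR.Cube
set_option autoImplicit false

/-!
# Records and their extension to acyclic unique sink orientations

A record is a visited vertex `w`, the set `S` of improving directions shown there, and a set `W` of
directions `x` such that freezing coordinate `x` at the value different from `w x` makes the record
harmless (the direction wipes it). `Ext Y p` says that the records `p` of a play in the coordinates `Y` can be
extended to an orientation with prescribed hypersinks, provided these wipe all records.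
-/

namespace Pool.Agent.TH70.AR

open Finset

variable {n : ℕ}

/-- a visited vertex with the improving directions shown and the directions that wipe it -/
structure Rec (n : ℕ) where
  w : Fin n → Bool
  S : Finset (Fin n)
  W : Finset (Fin n)

/-- freezing `A` at the values of `v` wipes the record -/
def Wipes (A : Finset (Fin n)) (v : Fin n → Bool) (r : Rec n) : Prop :=
  ∃ x ∈ A, x ∈ r.W ∧ v x ≠ r.w x

/-- closing a record: the coordinates of `X` have been frozen at the values of `b` -/
def cl (X : Finset (Fin n)) (b : Fin n → Bool) (r : Rec n) : Rec n :=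
  ⟨r.w, r.S, r.W.filter fun x => ¬ (x ∈ X ∧ b x = r.w x)⟩

/-- the records `p` can be extended to an orientation, for all admissible hypersinks -/
def Ext (Y : Finset (Fin n)) (p : List (Rec n)) : Prop :=
  ∀ (v : Fin n → Bool) (𝓐 : Finset (Finset (Fin n))), (∀ A ∈ 𝓐, ∀ r ∈ p, Wipes A v r) →
    ∃ f : (Fin n → Bool) → ℕ, AOF f ∧
      (∀ r ∈ p, ∀ i ∈ Y, (f r.w < f (flip r.w i) ↔ i ∈ r.S)) ∧ ∀ A ∈ 𝓐, Hyp f A v

lemma ext_nil (Y : Finset (Fin n)) : Ext Y [] := by
  intro v 𝓐 _
  exact ⟨fun u => agr u v, AOF.uniform v, by simp, fun A _ => hyp_uniform A v⟩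

/-- one record -/
lemma ext_single (Y : Finset (Fin n)) (a : Fin n → Bool) (S : Finset (Fin n)) :
    Ext Y [⟨a, S, S⟩] := by
  classical
  intro v 𝓐 h𝓐
  -- the target of the record
  set t : Fin n → Bool := fun i => if i ∈ S then !a i else a i with ht
  -- `P`: some coordinate of `S` has moved towards `v`
  set P : (Fin n → Bool) → Prop := fun u => ∃ i ∈ S, v i ≠ a i ∧ u i = v i with hP
  have hta : ∀ i, t i ≠ a i ↔ i ∈ S := by
    intro i
    simp only [ht]
    split_ifs with h <;> simp [h]
  have hAOF : AOF (stack P (fun u => agr u v) (fun u => agr u t)) := by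
    apply (AOF.uniform t).stackUniform
    · rintro u i ⟨j, hj, h1, h2⟩ hi
      refine ⟨j, hj, h1, ?_⟩
      rw [flip_of_ne _ (by rintro rfl; exact hi h2)]
      exact h2
    · rintro u ⟨j, hj, h1, h2⟩
      refine ⟨{j}, ?_, ?_, ?_⟩
      · have hjt : t j = v j := by
          simp only [ht, if_pos hj]
          cases hv : v j <;> cases ha : a j <;> simp_all
        intro z hz i hi
        rw [mem_singleton] at hi
        subst hi
        exact agr_flip_lt (by rw [hz i (by simp), hjt])
      · intro i hi
        rw [mem_singleton] at hi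
        subst hi
        exact h2
      · intro z hz
        exact ⟨j, hj, h1, hz j (by simp)⟩
  refine ⟨_, hAOF, ?_, ?_⟩
  · intro r hr i _
    rw [List.mem_singleton] at hr
    subst hr
    change stack P _ _ a < stack P _ _ (flip a i) ↔ i ∈ S
    have ha : ¬ P a := by
      rintro ⟨j, _, h1, h2⟩
      exact h1 h2.symm
    by_cases hf : P (flip a i)
    · refine iff_of_true (stack_lt ha hf) ?_
      obtain ⟨j, hj, h1, h2⟩ := hf
      by_cases hij : j = i
      · exact hij ▸ hj
      · rw [flip_of_ne _ hij] at h2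
        exact absurd h2.symm h1
    · rw [stack_lt_neg ha hf, agr_flip_lt_iff, ← hta i]
      exact ne_comm
  · intro A hA u hu i hi
    obtain ⟨x, hxA, hxS, hx⟩ := h𝓐 A hA ⟨a, S, S⟩ (by simp)
    have hPu : P u := ⟨x, hxS, hx, hu x hxA⟩
    by_cases h : P (flip u i)
    · rw [stack_lt_pos h hPu]
      exact agr_flip_lt (hu i hi)
    · exact stack_lt h hPu

/-- **Composition.** Records `p` in the coordinates `Y`, wiped by freezing `X` at `b`, followed by
records `q` in the face where `X` is frozen. -/
lemma ext_comp {Y X : Finset (Fin n)} {b : Fin n → Bool} {p q : List (Rec n)}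
    (hp : Ext Y p) (hwp : ∀ r ∈ p, Wipes X b r) (hq : Ext (Y \ X) q)
    (hqS : ∀ r ∈ q, r.S ⊆ Y \ X) (hqW : ∀ r ∈ q, r.W ⊆ Y \ X) (hqw : ∀ r ∈ q, On X b r.w) :
    Ext Y (p.map (cl X b) ++ q) := by
  classical
  intro v 𝓐 h𝓐
  -- the conflict set
  set Γ : Finset (Fin n) := X.filter fun x => v x ≠ b x with hΓ
  set v' : Fin n → Bool := fun x => if x ∈ X then b x else v x with hv'
  have hv'A : ∀ (A : Finset (Fin n)), ∀ x ∈ A \ Γ, v' x = v x := by
    intro A x hx
    simp only [hv']
    split_ifs with h
    · by_contra hne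
      rw [mem_sdiff, hΓ, mem_filter] at hx
      exact hx.2 ⟨h, fun e => hne e.symm⟩
    · rfl
  -- first part
  obtain ⟨f₁, hf₁, hf₁S, hf₁H⟩ := hp v' (insert X (𝓐.image fun A => A \ Γ)) (by
    intro A hA r hr
    rw [mem_insert] at hA
    rcases hA with rfl | hA
    · obtain ⟨x, hx, h1, h2⟩ := hwp r hr
      exact ⟨x, hx, h1, by simpa [hv', hx] using h2⟩
    · rw [mem_image] at hA
      obtain ⟨A, hA, rfl⟩ := hA
      obtain ⟨x, hx, h1, h2⟩ := h𝓐 A hA (cl X b r) (by
        rw [List.mem_append]; left; exact List.mem_map_of_mem hr)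
      simp only [cl, mem_filter, not_and] at h1 h2
      have hxΓ : x ∉ Γ := by
        rw [hΓ, mem_filter]
        rintro ⟨h3, h4⟩
        have h5 := h1.2 h3
        apply h4
        cases hv : v x <;> cases hb : b x <;> cases hw : r.w x <;> simp_all
      refine ⟨x, mem_sdiff.2 ⟨hx, hxΓ⟩, h1.1, ?_⟩
      rw [hv'A A x (mem_sdiff.2 ⟨hx, hxΓ⟩)]
      exact h2)
  have hX : Hyp f₁ X b := by
    intro u hu i hi
    refine hf₁H X (mem_insert_self _ _) u (fun j hj => ?_) i hi
    simp [hv', hj, hu j hj]
  -- second part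
  obtain ⟨f₂, hf₂, hf₂S, hf₂H⟩ := hq v (𝓐.image fun A => A \ X) (by
    intro A hA r hr
    rw [mem_image] at hA
    obtain ⟨A, hA, rfl⟩ := hA
    obtain ⟨x, hx, h1, h2⟩ := h𝓐 A hA r (by rw [List.mem_append]; right; exact hr)
    exact ⟨x, mem_sdiff.2 ⟨hx, (mem_sdiff.1 (hqW r hr h1)).2⟩, h1, h2⟩)
  set g := stack (On X b) f₂ f₁ with hg
  have hgA : AOF g := hf₁.stackOn hf₂ hX
  -- the hypersinks of `g`
  have hgH : ∀ A ∈ 𝓐, Hyp g (A \ Γ) v := by
    intro A hA u hu i hi
    rw [hg]
    by_cases huX : On X b u
    · by_cases hfX : On X b (flip u i)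
      · rw [stack_lt_pos hfX huX]
        have hiX : i ∉ X := by
          intro h
          have h1 := hfX i h
          rw [flip_self, huX i h] at h1
          simp at h1
        refine hf₂H (A \ X) (mem_image_of_mem _ hA) u (fun j hj => ?_) i
          (mem_sdiff.2 ⟨(mem_sdiff.1 hi).1, hiX⟩)
        refine hu j (mem_sdiff.2 ⟨(mem_sdiff.1 hj).1, fun h => (mem_sdiff.1 hj).2 ?_⟩)
        rw [hΓ, mem_filter] at h
        exact h.1
      · exact stack_lt hfX huX
    · by_cases hfX : On X b (flip u i)
      · exfalso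
        have hiX : i ∈ X := by
          by_contra h
          exact huX (by simpa [flip_flip] using hfX.flip h)
        have h1 := hfX i hiX
        rw [flip_self, hu i hi, ← hv'A A i hi] at h1
        simp [hv', hiX] at h1
      · rw [stack_lt_neg hfX huX]
        refine hf₁H (A \ Γ) (mem_insert_of_mem (mem_image_of_mem _ hA)) u (fun j hj => ?_) i hi
        rw [hv'A A j hj]
        exact hu j hj
  -- the improving directions of `g`
  have hgS : ∀ r ∈ p.map (cl X b) ++ q, ∀ i ∈ Y, (g r.w < g (flip r.w i) ↔ i ∈ r.S) := by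
    intro r hr i hi
    rw [List.mem_append, List.mem_map] at hr
    rcases hr with ⟨r, hr, rfl⟩ | hr
    · change g r.w < g (flip r.w i) ↔ i ∈ r.S
      have hrX : ¬ On X b r.w := by
        intro h
        obtain ⟨x, hx, _, h2⟩ := hwp r hr
        exact h2 (h x hx).symm
      rw [← hf₁S r hr i hi, hg]
      by_cases hfX : On X b (flip r.w i)
      · refine iff_of_true (stack_lt hrX hfX) ?_
        have hiX : i ∈ X := by
          by_contra h
          exact hrX (by simpa [flip_flip] using hfX.flip h)
        have := hX _ hfX i hiX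
        rwa [flip_flip] at this
      · rw [stack_lt_neg hrX hfX]
    · have hrX := hqw r hr
      rw [hg]
      by_cases hiX : i ∈ X
      · have hfX : ¬ On X b (flip r.w i) := by
          intro h
          have h1 := h i hiX
          rw [flip_self, hrX i hiX] at h1
          simp at h1
        refine iff_of_false ?_ ?_
        · have := stack_lt (g := f₂) (f := f₁) hfX hrX
          omega
        · intro h
          exact (mem_sdiff.1 (hqS r hr h)).2 hiX
      · rw [stack_lt_pos hrX (hrX.flip hiX)]
        exact hf₂S r hr i (mem_sdiff.2 ⟨hi, hiX⟩)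
  -- make the hypersinks bigger
  set P : (Fin n → Bool) → Prop := fun u => ∃ A ∈ 𝓐, On (A \ Γ) v u with hP
  have hPA : AOF (stack P (fun u => agr u v) g) := by
    apply hgA.stackUniform
    · rintro u i ⟨A, hA, h⟩ hi
      refine ⟨A, hA, fun j hj => ?_⟩
      by_cases hji : j = i
      · subst hji
        exact absurd (h j hj) hi
      · rw [flip_of_ne _ hji]
        exact h j hj
    · rintro u ⟨A, hA, h⟩
      exact ⟨A \ Γ, hgH A hA, h, fun z hz => ⟨A, hA, hz⟩⟩
  refine ⟨_, hPA, ?_, ?_⟩
  · intro r hr i hi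
    have hrP : ¬ P r.w := by
      rintro ⟨A, hA, h⟩
      -- `A \ Γ` wipes `r`
      obtain ⟨x, hx, h1, h2⟩ := h𝓐 A hA r hr
      refine h2 (h x (mem_sdiff.2 ⟨hx, fun hxΓ => ?_⟩)).symm
      rw [hΓ, mem_filter] at hxΓ
      rw [List.mem_append, List.mem_map] at hr
      rcases hr with ⟨r, hr, rfl⟩ | hr
      · simp only [cl, mem_filter, not_and] at h1 h2
        have h5 := h1.2 hxΓ.1
        apply hxΓ.2
        cases hv : v x <;> cases hb : b x <;> cases hw : r.w x <;> simp_all
      · exact (mem_sdiff.1 (hqW r hr h1)).2 hxΓ.1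
    rw [← hgS r hr i hi]
    by_cases hfP : P (flip r.w i)
    · refine iff_of_true (stack_lt hrP hfP) ?_
      obtain ⟨A, hA, h⟩ := hfP
      have hiA : i ∈ A \ Γ := by
        by_contra h'
        exact hrP ⟨A, hA, by simpa [flip_flip] using h.flip h'⟩
      have := hgH A hA _ h i hiA
      rwa [flip_flip] at this
    · rw [stack_lt_neg hrP hfP]
  · intro A hA u hu i hi
    have hPu : P u := ⟨A, hA, fun j hj => hu j (mem_sdiff.1 hj).1⟩
    by_cases h : P (flip u i)
    · rw [stack_lt_pos h hPu]
      exact agr_flip_lt (hu i hi)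
    · exact stack_lt h hPu

end Pool.Agent.TH70.AR
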