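import Pool.Agent.TH70.AR.Walk
set_option autoImplicit false

/-!
# Epochs: doubling the length of the walk
-/

namespace Pool.Agent.TH70.AR

open Finset

variable {n : ℕ} {A : Past n → Fin n} {c : ℕ → ℕ}

/-- In every cube with more than `K` coordinates the adversary can make the rule walk along between `N`
and `M` records with at most `K` useless directions each, and then wipe all of them by freezing at most
`l` coordinates. -/
def Lv (A : Past n → Fin n) (c : ℕ → ℕ) (K l N M : ℕ) : Prop :=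
  ∀ (Y : Finset (Fin n)) (h : Past n) (a : Fin n → Bool), K < Y.card →
    ∃ (q : List (Rec n)) (b : Fin n → Bool) (X : Finset (Fin n)),
      Walk A c h a q b ∧ Ext Y q ∧ (∀ r ∈ q, r.S ⊆ Y) ∧
      (∀ r ∈ q, r.W ⊆ Y ∧ (Y \ r.W).card ≤ K) ∧
      X ⊆ Y ∧ X.card ≤ l ∧ (∀ r ∈ q, Wipes X b r) ∧ N ≤ q.length ∧ q.length ≤ M

lemma lv_zero (hA : Valid A) : Lv A c 0 1 1 1 := by
  intro Y h a hY
  have hne : Y.Nonempty := card_pos.1 hY
  set i := A ((a, c h.length, Y) :: h) with hi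
  have hiY : i ∈ Y := hA a _ Y h hne
  refine ⟨[⟨a, Y, Y⟩], flip a i, {i}, ⟨rfl, hne, rfl⟩, ext_single Y a Y, ?_, ?_, ?_, by simp, ?_,
    by simp, by simp⟩
  · intro r hr
    rw [List.mem_singleton] at hr
    subst hr
    exact Subset.refl _
  · intro r hr
    rw [List.mem_singleton] at hr
    subst hr
    exact ⟨Subset.refl _, by simp⟩
  · simpa using hiY
  · intro r hr
    rw [List.mem_singleton] at hr
    subst hr
    refine ⟨i, mem_singleton_self i, hiY, ?_⟩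
    change flip a i i ≠ a i
    rw [flip_self]
    simp

lemma lv_mono {K l N M K' l' N' M' : ℕ} (h : Lv A c K l N M) (hK : K ≤ K') (hl : l ≤ l')
    (hN : N' ≤ N) (hM : M ≤ M') : Lv A c K' l' N' M' := by
  intro Y p a hY
  obtain ⟨q, b, X, h1, h2, h3, h4, h5, h6, h7, h8, h9⟩ := h Y p a (by omega)
  exact ⟨q, b, X, h1, h2, h3, fun r hr => ⟨(h4 r hr).1, (h4 r hr).2.trans hK⟩, h5, h6.trans hl, h7,
    hN.trans h8, h9.trans hM⟩

lemma lv_succ (hA : Valid A) {k K l N M m : ℕ} (hk : 1 ≤ k)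
    (hm : 2 * M * (2 * k + 1) ^ m < (2 * k + 2) ^ m) (hl : 1 ≤ l) (h : Lv A c K l N M) :
    Lv A c (K + K / k + 2 * l + m) m (2 * N) (2 * M + m) := by
  intro Y p a hY
  have hd0 : (0 : ℤ) ≤ (K : ℤ) / (k : ℤ) := by positivity
  obtain ⟨q₁, b₁, X₁, w₁, e₁, s₁, u₁, x₁, c₁, v₁, n₁, m₁⟩ := h Y p a (by omega)
  have hY₁ : (Y \ X₁).card + X₁.card = Y.card := card_sdiff_add_card_eq_card x₁
  obtain ⟨q₂, b₂, X₂, w₂, e₂, s₂, u₂, x₂, c₂, v₂, n₂, m₂⟩ :=
    h (Y \ X₁) (pst c p q₁) b₁ (by omega)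
  have hY₂ : ((Y \ X₁) \ X₂).card + X₂.card = (Y \ X₁).card := card_sdiff_add_card_eq_card x₂
  obtain ⟨q₃, b₃, X₃, w₃, e₃, s₃, u₃, x₃, -, c₃, m₃, v₃, v₃'⟩ :=
    wipe (c := c) hA (K := K) hk m ((Y \ X₁) \ X₂) ∅ (q₁ ++ q₂) (pst c (pst c p q₁) q₂) b₂
      (empty_subset _)
      (by
        intro r hr
        rcases List.mem_append.1 hr with hr | hr
        · exact (card_le_card (sdiff_subset_sdiff (sdiff_subset.trans sdiff_subset)
            (Subset.refl _))).trans (u₁ r hr).2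
        · exact (card_le_card (sdiff_subset_sdiff sdiff_subset (Subset.refl _))).trans (u₂ r hr).2)
      (by
        rw [List.length_append]
        calc (q₁.length + q₂.length) * (2 * k + 1) ^ m
            ≤ (2 * M) * (2 * k + 1) ^ m := Nat.mul_le_mul_right _ (by omega)
          _ < _ := hm)
      (by rw [card_empty]; omega)
  simp only [sdiff_empty, card_empty, zero_add] at s₃ u₃ c₃
  have f₂ := walk_fix hA w₂ s₂
  have f₃ := walk_fix hA w₃ s₃
  -- the second and third parts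
  have S₂₃ : ∀ r ∈ q₂.map (cl X₂ b₂) ++ q₃, r.S ⊆ Y \ X₁ := by
    intro r hr
    rcases List.mem_append.1 hr with hr | hr
    · obtain ⟨s, hs, rfl⟩ := List.mem_map.1 hr
      exact s₂ s hs
    · exact (s₃ r hr).trans sdiff_subset
  have W₂₃ : ∀ r ∈ q₂.map (cl X₂ b₂) ++ q₃, r.W ⊆ Y \ X₁ := by
    intro r hr
    rcases List.mem_append.1 hr with hr | hr
    · obtain ⟨s, hs, rfl⟩ := List.mem_map.1 hr
      exact (filter_subset _ _).trans (u₂ s hs).1
    · exact (u₃ r hr).1.trans sdiff_subset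
  have E₂₃ : Ext (Y \ X₁) (q₂.map (cl X₂ b₂) ++ q₃) :=
    ext_comp e₂ v₂ e₃ s₃ (fun r hr => (u₃ r hr).1) fun r hr x hx =>
      f₃.2 r hr x fun h' => (mem_sdiff.1 h').2 hx
  have E : Ext Y (q₁.map (cl X₁ b₁) ++ (q₂.map (cl X₂ b₂) ++ q₃)) := by
    refine ext_comp e₁ v₁ E₂₃ S₂₃ W₂₃ fun r hr x hx => ?_
    rcases List.mem_append.1 hr with hr | hr
    · obtain ⟨s, hs, rfl⟩ := List.mem_map.1 hr
      exact f₂.2 s hs x fun h' => (mem_sdiff.1 h').2 hx
    · rw [f₃.2 r hr x fun h' => (mem_sdiff.1 (mem_sdiff.1 h').1).2 hx]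
      exact f₂.1 x fun h' => (mem_sdiff.1 h').2 hx
  have hX₃ : ∀ x ∈ X₃, x ∉ X₁ ∧ x ∉ X₂ := fun x hx =>
    ⟨(mem_sdiff.1 (mem_sdiff.1 (x₃ hx)).1).2, (mem_sdiff.1 (x₃ hx)).2⟩
  refine ⟨q₁.map (cl X₁ b₁) ++ (q₂.map (cl X₂ b₂) ++ q₃), b₃, X₃, ?_, E, ?_, ?_,
    x₃.trans (sdiff_subset.trans sdiff_subset), c₃, ?_, ?_, ?_⟩
  · refine walk_append (walk_map w₁) ?_
    rw [pst_map]
    refine walk_append (walk_map w₂) ?_
    rw [pst_map]
    exact w₃
  · intro r hr
    rcases List.mem_append.1 hr with hr | hr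
    · obtain ⟨s, hs, rfl⟩ := List.mem_map.1 hr
      exact s₁ s hs
    · exact (S₂₃ r hr).trans sdiff_subset
  · intro r hr
    rcases List.mem_append.1 hr with hr | hr
    · obtain ⟨s, hs, rfl⟩ := List.mem_map.1 hr
      refine ⟨(filter_subset _ _).trans (u₁ s hs).1, ?_⟩
      have h1 : Y \ (cl X₁ b₁ s).W ⊆ (Y \ s.W) ∪ X₁ := by
        intro x hx
        rw [mem_sdiff] at hx
        rw [mem_union, mem_sdiff]
        by_cases hxX : x ∈ X₁
        · exact Or.inr hxX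
        · exact Or.inl ⟨hx.1, fun hW => hx.2 (mem_filter.2 ⟨hW, fun h' => hxX h'.1⟩)⟩
      have h2 := card_le_card h1
      have h3 := card_union_le (Y \ s.W) X₁
      have h4 := (u₁ s hs).2
      omega
    · refine ⟨(W₂₃ r hr).trans sdiff_subset, ?_⟩
      rcases List.mem_append.1 hr with hr | hr
      · obtain ⟨s, hs, rfl⟩ := List.mem_map.1 hr
        have h1 : Y \ (cl X₂ b₂ s).W ⊆ ((Y \ X₁) \ s.W) ∪ (X₁ ∪ X₂) := by
          intro x hx
          rw [mem_sdiff] at hx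
          rw [mem_union, mem_sdiff, mem_sdiff, mem_union]
          by_cases hxX : x ∈ X₁
          · exact Or.inr (Or.inl hxX)
          by_cases hxX₂ : x ∈ X₂
          · exact Or.inr (Or.inr hxX₂)
          · exact Or.inl ⟨⟨hx.1, hxX⟩,
              fun hW => hx.2 (mem_filter.2 ⟨hW, fun h' => hxX₂ h'.1⟩)⟩
        have h2 := card_le_card h1
        have h3 := card_union_le ((Y \ X₁) \ s.W) (X₁ ∪ X₂)
        have h3' := card_union_le X₁ X₂
        have h4 := (u₂ s hs).2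
        omega
      · have h1 : Y \ r.W ⊆ (((Y \ X₁) \ X₂) \ r.W) ∪ (X₁ ∪ X₂) := by
          intro x hx
          rw [mem_sdiff] at hx
          rw [mem_union, mem_sdiff, mem_sdiff, mem_sdiff, mem_union]
          by_cases hxX : x ∈ X₁
          · exact Or.inr (Or.inl hxX)
          by_cases hxX₂ : x ∈ X₂
          · exact Or.inr (Or.inr hxX₂)
          · exact Or.inl ⟨⟨⟨hx.1, hxX⟩, hxX₂⟩, hx.2⟩
        have h2 := card_le_card h1
        have h3 := card_union_le (((Y \ X₁) \ X₂) \ r.W) (X₁ ∪ X₂)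
        have h3' := card_union_le X₁ X₂
        have h4 := (u₃ r hr).2
        omega
  · intro r hr
    rcases List.mem_append.1 hr with hr | hr
    · obtain ⟨s, hs, rfl⟩ := List.mem_map.1 hr
      obtain ⟨x, hx, h1, h2⟩ := v₃ s (List.mem_append_left _ hs)
      exact ⟨x, hx, mem_filter.2 ⟨h1, fun h' => (hX₃ x hx).1 h'.1⟩, h2⟩
    · rcases List.mem_append.1 hr with hr | hr
      · obtain ⟨s, hs, rfl⟩ := List.mem_map.1 hr
        obtain ⟨x, hx, h1, h2⟩ := v₃ s (List.mem_append_right _ hs)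
        exact ⟨x, hx, mem_filter.2 ⟨h1, fun h' => (hX₃ x hx).2 h'.1⟩, h2⟩
      · exact v₃' r hr
  · simp only [List.length_append, List.length_map]
    omega
  · simp only [List.length_append, List.length_map]
    omega

/-- `(1 + 1/(2k+1)) ^ (2k+1) ≥ 2` -/
lemma two_pow_mul_le (k b : ℕ) :
    2 ^ b * (2 * k + 1) ^ ((2 * k + 1) * b) ≤ (2 * k + 2) ^ ((2 * k + 1) * b) := by
  have h1 : 2 * (2 * k + 1) ^ (2 * k + 1) ≤ (2 * k + 2) ^ (2 * k + 1) := by
    have h2 : (2 : ℝ) * (2 * k + 1) ^ (2 * k + 1) ≤ (2 * k + 2) ^ (2 * k + 1) := by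
      have h3 : (0 : ℝ) < 2 * k + 1 := by positivity
      have h4 := one_add_mul_le_pow (a := (1 : ℝ) / (2 * k + 1)) (by
        have : (0 : ℝ) ≤ 1 / (2 * k + 1) := by positivity
        linarith) (2 * k + 1)
      have h5 : (1 : ℝ) + ((2 * k + 1 : ℕ) : ℝ) * (1 / (2 * k + 1)) = 2 := by
        push_cast
        field_simp
        norm_num
      rw [h5] at h4
      have h6 : (1 + (1 : ℝ) / (2 * k + 1)) = (2 * k + 2) / (2 * k + 1) := by
        field_simp
        ring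
      rw [h6, div_pow, le_div_iff₀ (by positivity)] at h4
      exact h4
    exact_mod_cast h2
  calc 2 ^ b * (2 * k + 1) ^ ((2 * k + 1) * b) = (2 * (2 * k + 1) ^ (2 * k + 1)) ^ b := by
        rw [mul_pow, ← pow_mul]
    _ ≤ ((2 * k + 2) ^ (2 * k + 1)) ^ b := Nat.pow_le_pow_left h1 b
    _ = (2 * k + 2) ^ ((2 * k + 1) * b) := by rw [← pow_mul]

/-- all levels -/
lemma lv_all (hA : Valid A) (j : ℕ) :
    Lv A c (j * (j + 1) * (3 * j + 28)) ((2 * j + 1) * (j + 6)) (2 ^ j)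
      (2 ^ (j + 6) - (2 * j ^ 2 + 21 * j + 44)) := by
  have hs : ∀ j : ℕ, 2 * j ^ 2 + 21 * j + 45 ≤ 2 ^ (j + 6) := by
    intro j
    induction j with
    | zero => norm_num
    | succ j ih =>
      have : 2 ^ (j + 1 + 6) = 2 * 2 ^ (j + 6) := by ring
      rw [this]
      nlinarith
  induction j with
  | zero => exact lv_mono (lv_zero hA) (by norm_num) (by norm_num) (by norm_num) (by norm_num)
  | succ j ih =>
    have h1 := hs j
    have h2 : 2 ^ (j + 1 + 6) = 2 * 2 ^ (j + 6) := by ring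
    have h3 : 2 ^ (j + 7) = 2 * 2 ^ (j + 6) := by ring
    have h4 := two_pow_mul_le (j + 1) (j + 7)
    refine lv_mono (lv_succ hA (k := j + 1) (m := (2 * (j + 1) + 1) * (j + 7)) (by omega) ?_ ?_ ih)
      ?_ ?_ ?_ ?_
    · refine lt_of_lt_of_le (Nat.mul_lt_mul_of_pos_right ?_ (by positivity)) h4
      rw [h3]
      omega
    · nlinarith
    · have h5 : j * (j + 1) * (3 * j + 28) / (j + 1) = j * (3 * j + 28) := by
        rw [mul_assoc, mul_comm (j + 1), ← mul_assoc]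
        exact Nat.mul_div_cancel _ (by omega)
      rw [h5]
      nlinarith
    · nlinarith
    · rw [pow_succ]; omega
    · rw [h2]
      have h6 : 2 * (j + 1) ^ 2 + 21 * (j + 1) + 44 + (2 * (j + 1) + 1) * (j + 7)
          ≤ 2 * (2 * j ^ 2 + 21 * j + 44) := by nlinarith
      omega

end Pool.Agent.TH70.AR
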