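import Pool.Agent.TH70.AR.Level
set_option autoImplicit false

/-!
# The run of a rule on the final objective function
-/

namespace Pool.Agent.TH70.AR

open Finset

variable {n : ℕ}

/-- the improving directions at `x` -/
def improving (f : (Fin n → Bool) → ℕ) (x : Fin n → Bool) : Finset (Fin n) :=
  univ.filter fun i => f x < f (flip x i)

/-- what is seen at the vertex `x`: the vertex, its value and its improving directions -/
def view (f : (Fin n → Bool) → ℕ) (x : Fin n → Bool) :
    (Fin n → Bool) × ℕ × Finset (Fin n) := (x, f x, improving f x)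

/-- everything seen along `w 0, …, w t`, the current vertex first -/
def seen (f : (Fin n → Bool) → ℕ) (w : ℕ → (Fin n → Bool)) :
    ℕ → List ((Fin n → Bool) × ℕ × Finset (Fin n))
  | 0 => [view f (w 0)]
  | t + 1 => view f (w (t + 1)) :: seen f w t

/-- relabelling the values so that the vertices of a given increasing path get prescribed values -/
lemma relabel {f : (Fin n → Bool) → ℕ} (hf : AOF f) {T : ℕ} (w : ℕ → (Fin n → Bool))
    (hw : ∀ t, t + 1 < T → f (w t) < f (w (t + 1))) :
    ∃ g : (Fin n → Bool) → ℕ, Function.Injective g ∧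
      (∀ x i, g x < g (flip x i) ↔ f x < f (flip x i)) ∧ ∀ t < T, g (w t) = (t + 1) * 2 ^ n := by
  classical
  set e := Fintype.equivFin (Fin n → Bool) with he
  have hcard : Fintype.card (Fin n → Bool) = 2 ^ n := by simp
  -- an injective refinement of `f`
  set κ : (Fin n → Bool) → ℕ := fun u => f u * 2 ^ n + (e u : ℕ) with hκ
  have hκe : ∀ u, (e u : ℕ) < 2 ^ n := fun u => hcard ▸ (e u).2
  have hκlt : ∀ u v, f u < f v → κ u < κ v := by
    intro u v h
    simp only [hκ]
    have h1 := hκe u
    have h2 : (f u + 1) * 2 ^ n ≤ f v * 2 ^ n := Nat.mul_le_mul_right _ h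
    nlinarith
  have hκinj : Function.Injective κ := by
    intro u v h
    have h1 : f u = f v := by
      rcases lt_trichotomy (f u) (f v) with h' | h' | h'
      · exact absurd h (hκlt u v h').ne
      · exact h'
      · exact absurd h (hκlt v u h').ne'
    simp only [hκ, h1] at h
    exact e.injective (Fin.ext (by omega))
  have hadj : ∀ (g : (Fin n → Bool) → ℕ), (∀ u v, κ u < κ v → g u < g v) →
      ∀ x i, g x < g (flip x i) ↔ f x < f (flip x i) := by
    intro g hg x i
    constructor
    · intro h
      by_contra h'
      have h1 : f (flip x i) < f x := lt_of_le_of_ne (not_lt.1 h') (hf.ne x i)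
      have := hg _ _ (hκlt _ _ h1)
      omega
    · intro h
      exact hg _ _ (hκlt _ _ h)
  have hginj : ∀ (g : (Fin n → Bool) → ℕ), (∀ u v, κ u < κ v → g u < g v) →
      Function.Injective g := by
    intro g hg u v h
    rcases lt_trichotomy (κ u) (κ v) with h' | h' | h'
    · exact absurd h (hg u v h').ne
    · exact hκinj h'
    · exact absurd h (hg v u h').ne'
  rcases Nat.eq_zero_or_pos T with hT | hT
  · exact ⟨κ, hκinj, hadj κ fun _ _ h => h, fun t ht => by omega⟩
  -- the path is increasing
  have hwmono : ∀ s t, s < t → t < T → κ (w s) < κ (w t) := by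
    intro s t hst
    induction t with
    | zero => omega
    | succ t ih =>
      intro ht
      rcases Nat.lt_succ_iff_lt_or_eq.1 hst with h | h
      · exact (ih h (by omega)).trans (hκlt _ _ (hw t ht))
      · subst h; exact hκlt _ _ (hw s ht)
  set c : (Fin n → Bool) → ℕ := fun u => ((range T).filter fun t => κ (w t) ≤ κ u).card with hc
  set R : (Fin n → Bool) → Finset (Fin n → Bool) := fun u =>
    univ.filter fun u' => κ u' ≤ κ u ∧ c u' = c u ∧ ∀ t < T, u' ≠ w t with hR
  have hRc : ∀ u, (R u).card < 2 ^ n := by
    intro u
    rw [← hcard, ← card_univ]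
    apply card_lt_card
    rw [ssubset_iff_of_subset (subset_univ _)]
    exact ⟨w 0, mem_univ _, fun h => by
      simp only [hR, mem_filter] at h
      exact h.2.2.2 0 hT rfl⟩
  have hcmono : ∀ u v, κ u ≤ κ v → c u ≤ c v := by
    intro u v h
    apply card_le_card
    intro t ht
    rw [mem_filter] at ht ⊢
    exact ⟨ht.1, ht.2.trans h⟩
  have hmono : ∀ u v, κ u < κ v → c u * 2 ^ n + (R u).card < c v * 2 ^ n + (R v).card := by
    intro u v h
    have h1 := hcmono u v h.le
    rcases lt_or_eq_of_le h1 with h2 | h2
    · have h3 := hRc u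
      have h4 : (c u + 1) * 2 ^ n ≤ c v * 2 ^ n := Nat.mul_le_mul_right _ h2
      nlinarith
    · have hv : ∀ t < T, v ≠ w t := by
        rintro t ht rfl
        have : c u < c (w t) := by
          apply card_lt_card
          rw [ssubset_iff_of_subset (by
            intro s hs
            rw [mem_filter] at hs ⊢
            exact ⟨hs.1, hs.2.trans h.le⟩)]
          exact ⟨t, mem_filter.2 ⟨mem_range.2 ht, le_refl _⟩, fun h' => by
            rw [mem_filter] at h'
            omega⟩
        omega
      have h3 : (R u).card < (R v).card := by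
        apply card_lt_card
        rw [ssubset_iff_of_subset (by
          intro s hs
          simp only [hR, mem_filter, mem_univ, true_and] at hs ⊢
          exact ⟨hs.1.trans h.le, hs.2.1.trans h2, hs.2.2⟩)]
        refine ⟨v, ?_, fun h' => ?_⟩
        · rw [hR, mem_filter]
          exact ⟨mem_univ _, le_refl _, rfl, hv⟩
        · simp only [hR, mem_filter, mem_univ, true_and] at h'
          omega
      rw [h2]
      omega
  refine ⟨fun u => c u * 2 ^ n + (R u).card, hginj _ hmono, hadj _ hmono, fun t ht => ?_⟩
  have h1 : c (w t) = t + 1 := by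
    simp only [hc]
    rw [show (range T).filter (fun s => κ (w s) ≤ κ (w t)) = range (t + 1) from ?_, card_range]
    ext s
    rw [mem_filter, mem_range, mem_range]
    constructor
    · rintro ⟨h1, h2⟩
      by_contra h3
      have := hwmono t s (by omega) h1
      omega
    · intro h1
      refine ⟨by omega, ?_⟩
      rcases Nat.lt_succ_iff_lt_or_eq.1 h1 with h | h
      · exact (hwmono s t h ht).le
      · rw [h]
  have h2 : R (w t) = ∅ := by
    rw [eq_empty_iff_forall_notMem]
    intro u hu
    simp only [hR, mem_filter, mem_univ, true_and] at hu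
    obtain ⟨h3, h4, h5⟩ := hu
    have h6 : κ u < κ (w t) := lt_of_le_of_ne h3 fun h => h5 t ht (hκinj h)
    have h7 : c u < c (w t) := by
      apply card_lt_card
      rw [ssubset_iff_of_subset (by
        intro s hs
        rw [mem_filter] at hs ⊢
        exact ⟨hs.1, hs.2.trans h6.le⟩)]
      exact ⟨t, mem_filter.2 ⟨mem_range.2 ht, le_refl _⟩, fun h' => by
        rw [mem_filter] at h'
        omega⟩
    omega
  simp only [h1, h2, card_empty, add_zero]

/-- `t` steps of the rule from `a` with the past `h` -/
def run (A : Past n → Fin n) (f : (Fin n → Bool) → ℕ) :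
    ℕ → (Fin n → Bool) → Past n → (Fin n → Bool) × Past n
  | 0, a, h => (a, h)
  | t + 1, a, h => run A f t (flip a (A (view f a :: h))) (view f a :: h)

lemma run_succ (A : Past n → Fin n) (f : (Fin n → Bool) → ℕ) (t : ℕ) (a : Fin n → Bool)
    (h : Past n) : run A f (t + 1) a h =
      (flip (run A f t a h).1 (A (view f (run A f t a h).1 :: (run A f t a h).2)),
        view f (run A f t a h).1 :: (run A f t a h).2) := by
  induction t generalizing a h with
  | zero => rfl
  | succ t ih => rw [run, ih]; rfl

lemma run_walk {A : Past n → Fin n} {c : ℕ → ℕ} {f : (Fin n → Bool) → ℕ} {q : List (Rec n)}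
    {h : Past n} {a b : Fin n → Bool} (hq : Walk A c h a q b)
    (hS : ∀ r ∈ q, improving f r.w = r.S)
    (hv : ∀ (t : ℕ) (ht : t < q.length), f (q[t]).w = c (h.length + t)) :
    ∀ (t : ℕ) (ht : t < q.length), (run A f t a h).1 = (q[t]).w ∧ (q[t]).S.Nonempty := by
  induction q generalizing h a with
  | nil => intro t ht; simp at ht
  | cons r q ih =>
    simp only [Walk] at hq
    obtain ⟨h1, h2, h3⟩ := hq
    have h4 : view f a = (a, c h.length, r.S) := by
      have h5 := hv 0 (by simp)
      simp only [List.getElem_cons_zero, add_zero] at h5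
      rw [view, ← h1, h5, hS r List.mem_cons_self]
    intro t ht
    cases t with
    | zero => exact ⟨h1.symm, h2⟩
    | succ t =>
      have h5 := ih h3 (fun r hr => hS r (List.mem_cons_of_mem _ hr)) (by
        intro t ht
        have := hv (t + 1) (by simpa using ht)
        simp only [List.getElem_cons_succ] at this
        rw [this, List.length_cons]
        congr 1
        omega) t (by simpa using ht)
      rw [run, h4]
      simpa using h5

/-- increasing paths of at most `n` steps lead from every vertex to the maximum -/
lemma short_path {f : (Fin n → Bool) → ℕ} (hf : AOF f) (x : Fin n → Bool) :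
    ∃ (m : ℕ) (v : ℕ → (Fin n → Bool)), m ≤ n ∧ v 0 = x ∧
      (∀ t < m, ∃ i ∈ improving f (v t), v (t + 1) = flip (v t) i) ∧ improving f (v m) = ∅ := by
  classical
  obtain ⟨y, ⟨-, hy⟩, -⟩ := hf univ x
  have hy0 : improving f y = ∅ := by
    apply filter_eq_empty_iff.2
    intro i hi
    exact not_lt.2 (hy i hi).le
  have key : ∀ (d : ℕ) (x : Fin n → Bool), (univ.filter fun i => x i ≠ y i).card = d →
      ∃ v : ℕ → (Fin n → Bool), v 0 = x ∧
      (∀ t < d, ∃ i ∈ improving f (v t), v (t + 1) = flip (v t) i) ∧ v d = y := by
    intro d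
    induction d with
    | zero =>
      intro x hx
      refine ⟨fun _ => x, rfl, fun t ht => absurd ht (by omega), ?_⟩
      funext i
      by_contra hi
      have : i ∈ univ.filter fun i => x i ≠ y i := by simpa using hi
      rw [card_eq_zero.1 hx] at this
      simp at this
    | succ d ih =>
      intro x hx
      have h1 : ∃ i ∈ univ.filter (fun i => x i ≠ y i), f x < f (flip x i) := by
        by_contra hne
        push Not at hne
        have h2 := (hf (univ.filter fun i => x i ≠ y i) x).unique
          (y₁ := x) (y₂ := y) ⟨fun i _ => rfl, fun i hi =>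
            lt_of_le_of_ne (hne i hi) (hf.ne x i)⟩
          ⟨fun i hi => by
            by_contra h3
            exact hi (by simpa using fun h4 => h3 h4.symm), fun i _ => hy i (mem_univ i)⟩
        rw [h2] at hx
        simp at hx
      obtain ⟨i, hi, hlt⟩ := h1
      have h2 : (univ.filter fun j => flip x i j ≠ y j) =
          (univ.filter fun j => x j ≠ y j).erase i := by
        ext j
        simp only [mem_filter, mem_univ, true_and, mem_erase]
        rcases eq_or_ne j i with rfl | hj
        · simp only [flip_self, ne_eq, not_true_eq_false, false_and, iff_false, not_not]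
          rw [mem_filter] at hi
          have := hi.2
          revert this
          cases x j <;> cases y j <;> simp
        · simp [flip_of_ne x hj, hj]
      obtain ⟨v, hv0, hv1, hv2⟩ := ih (flip x i) (by rw [h2, card_erase_of_mem hi, hx]; rfl)
      refine ⟨fun t => Nat.casesOn t x v, rfl, ?_, hv2⟩
      intro t ht
      cases t with
      | zero =>
        refine ⟨i, ?_, hv0⟩
        rw [improving, mem_filter]
        exact ⟨mem_univ i, hlt⟩
      | succ t => exact hv1 t (by omega)
  obtain ⟨v, h1, h2, h3⟩ := key _ x rfl
  refine ⟨_, v, (card_le_univ _).trans_eq (Fintype.card_fin n), h1, h2, ?_⟩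
  rw [h3, hy0]

/-- The main lower bound. -/
theorem slow {n k : ℕ} (hn : k * (k + 1) * (3 * k + 28) < n) (A : Past n → Fin n) (hA : Valid A)
    (x₀ : Fin n → Bool) :
    ∃ f : (Fin n → Bool) → ℕ, Function.Injective f ∧ AOF f ∧
      ∃ (L : ℕ) (w : ℕ → (Fin n → Bool)), w 0 = x₀ ∧
        (∀ t < L, (improving f (w t)).Nonempty ∧ w (t + 1) = flip (w t) (A (seen f w t))) ∧
        improving f (w L) = ∅ ∧ 2 ^ k ≤ L := by
  classical
  obtain ⟨q, b, X, hq, hE, hS, -, -, -, -, hlen, -⟩ :=
    lv_all (c := fun t => (t + 1) * 2 ^ n) hA k univ [] x₀ (by simpa using hn)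
  obtain ⟨f₀, hf₀, hf₀S, -⟩ := hE (fun _ => false) ∅ (by simp)
  have hf₀S' : ∀ r ∈ q, improving f₀ r.w = r.S := by
    intro r hr
    ext i
    rw [improving, mem_filter]
    simpa using hf₀S r hr i (mem_univ i)
  -- the visited vertices increase
  have hinc : ∀ (q : List (Rec n)) (h : Past n) (a : Fin n → Bool),
      Walk A (fun t => (t + 1) * 2 ^ n) h a q b → (∀ r ∈ q, improving f₀ r.w = r.S) →
      ∀ (t : ℕ) (ht : t + 1 < q.length), f₀ (q[t]).w < f₀ (q[t + 1]).w := by
    intro q
    induction q with
    | nil => intro h a _ _ t ht; simp at ht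
    | cons r q ih =>
      intro h a hq hS t ht
      simp only [Walk] at hq
      obtain ⟨h1, h2, h3⟩ := hq
      cases t with
      | zero =>
        cases q with
        | nil => simp at ht
        | cons s q =>
          simp only [Walk] at h3
          simp only [List.getElem_cons_zero, List.getElem_cons_succ]
          rw [h3.1]
          have h4 := hA a ((h.length + 1) * 2 ^ n) r.S h h2
          rw [← hS r List.mem_cons_self, improving, mem_filter] at h4
          rw [← hS r List.mem_cons_self, improving]
          have h5 := h4.2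
          rw [h1] at h5 ⊢
          exact h5
      | succ t =>
        simp only [List.getElem_cons_succ]
        exact ih _ _ h3 (fun r hr => hS r (List.mem_cons_of_mem _ hr)) t (by simpa using ht)
  set u : ℕ → (Fin n → Bool) := fun t => if ht : t < q.length then (q[t]).w else x₀ with hu
  have hut : ∀ (t : ℕ) (ht : t < q.length), u t = (q[t]).w := fun t ht => by simp [hu, ht]
  obtain ⟨f, hinj, hadj, hval⟩ := relabel hf₀ (T := q.length) u (by
    intro t ht
    rw [hut t (by omega), hut (t + 1) ht]
    exact hinc q [] x₀ hq hf₀S' t ht)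
  have himp : ∀ x, improving f x = improving f₀ x := by
    intro x
    ext i
    simp only [improving, mem_filter, hadj]
  have hAOF : AOF f := by
    have h1 : ∀ y i, f (flip y i) < f y ↔ f₀ (flip y i) < f₀ y := by
      intro y i
      have := hadj (flip y i) i
      rwa [flip_flip] at this
    intro F x
    obtain ⟨y, ⟨hy1, hy2⟩, hy3⟩ := hf₀ F x
    exact ⟨y, ⟨hy1, fun i hi => (h1 y i).2 (hy2 i hi)⟩,
      fun z hz => hy3 z ⟨hz.1, fun i hi => (h1 z i).1 (hz.2 i hi)⟩⟩
  have hrun := run_walk (f := f) hq (fun r hr => (himp _).trans (hf₀S' r hr)) (by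
    intro t ht
    rw [← hut t ht, hval t ht]
    simp)
  refine ⟨f, hinj, hAOF, ?_⟩
  -- the run
  set w : ℕ → (Fin n → Bool) := fun t => (run A f t x₀ []).1 with hw
  have hseen : ∀ t, seen f w t = view f (w t) :: (run A f t x₀ []).2 := by
    intro t
    induction t with
    | zero => rfl
    | succ t ih => rw [seen, ih, run_succ]
  have hstep : ∀ t, w (t + 1) = flip (w t) (A (seen f w t)) := by
    intro t
    rw [hseen]
    simp only [hw, run_succ]
  have hup : ∀ t, (improving f (w t)).Nonempty → f (w t) < f (w (t + 1)) := by
    intro t ht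
    have h1 := hA (w t) (f (w t)) (improving f (w t)) (run A f t x₀ []).2 ht
    rw [hstep, hseen]
    change A (view f (w t) :: (run A f t x₀ []).2) ∈ _ at h1
    rw [improving, mem_filter] at h1
    exact h1.2
  have hend : ∃ t, improving f (w t) = ∅ := by
    by_contra hne
    push Not at hne
    have h1 : StrictMono fun t => f (w t) := strictMono_nat_of_lt_succ fun t => hup t (hne t)
    have h2 := h1.injective
    have h3 : Function.Injective w := fun s t h => h2 (by simp only [h])
    exact not_injective_infinite_finite w h3
  refine ⟨Nat.find hend, w, rfl, fun t ht => ⟨?_, hstep t⟩, Nat.find_spec hend, ?_⟩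
  · exact nonempty_iff_ne_empty.2 (Nat.find_min hend ht)
  · by_contra hlt
    have h1 : Nat.find hend < q.length := by omega
    have h2 := hrun _ h1
    have h3 : improving f (w (Nat.find hend)) = (q[Nat.find hend]).S := by
      rw [himp, ← hf₀S' _ (List.getElem_mem h1)]
      congr 1
      exact h2.1
    rw [Nat.find_spec hend] at h3
    rw [← h3] at h2
    exact absurd h2.2 (by simp)

end Pool.Agent.TH70.AR
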