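import Pool.Agent.TH70.AR.Ext
set_option autoImplicit false

/-!
# The adversary: walks of a rule and the wiping phase
-/

namespace Pool.Agent.TH70.AR

open Finset

variable {n : ℕ}

/-- what a rule sees: the visited vertices, their values and sets of improving directions, the
current vertex first -/
abbrev Past (n : ℕ) := List ((Fin n → Bool) × ℕ × Finset (Fin n))

/-- the rule chooses an improving direction -/
def Valid (A : Past n → Fin n) : Prop :=
  ∀ (x : Fin n → Bool) (c : ℕ) (S : Finset (Fin n)) (l : Past n), S.Nonempty → A ((x, c, S) :: l) ∈ S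

/-- The records `p` form a walk of the rule `A` from `a` to `b`; `h` is the past before `a`, and the
vertex visited after `t` steps has value `c t`. -/
def Walk (A : Past n → Fin n) (c : ℕ → ℕ) :
    Past n → (Fin n → Bool) → List (Rec n) → (Fin n → Bool) → Prop
  | _, a, [], b => a = b
  | h, a, r :: p, b => r.w = a ∧ r.S.Nonempty ∧
      Walk A c ((a, c h.length, r.S) :: h) (flip a (A ((a, c h.length, r.S) :: h))) p b

/-- the past after the records `p` -/
def pst (c : ℕ → ℕ) : Past n → List (Rec n) → Past n
  | h, [] => h
  | h, r :: p => pst c ((r.w, c h.length, r.S) :: h) p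

variable {A : Past n → Fin n} {c : ℕ → ℕ}

lemma walk_append {p q : List (Rec n)} {h : Past n} {a b d : Fin n → Bool}
    (hp : Walk A c h a p d) (hq : Walk A c (pst c h p) d q b) : Walk A c h a (p ++ q) b := by
  induction p generalizing h a with
  | nil =>
    simp only [Walk] at hp
    subst hp
    simpa [pst] using hq
  | cons r p ih =>
    simp only [Walk, List.cons_append] at hp ⊢
    obtain ⟨h1, h2, h3⟩ := hp
    refine ⟨h1, h2, ih h3 ?_⟩
    rw [← h1]
    simpa [pst] using hq

lemma walk_map {p : List (Rec n)} {h : Past n} {a d : Fin n → Bool} {X : Finset (Fin n)}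
    {b : Fin n → Bool} (hp : Walk A c h a p d) : Walk A c h a (p.map (cl X b)) d := by
  induction p generalizing h a with
  | nil => simpa [Walk] using hp
  | cons r p ih =>
    simp only [Walk, List.map_cons] at hp ⊢
    exact ⟨hp.1, hp.2.1, ih hp.2.2⟩

lemma pst_map {p : List (Rec n)} {h : Past n} {X : Finset (Fin n)} {b : Fin n → Bool} :
    pst c h (p.map (cl X b)) = pst c h p := by
  induction p generalizing h with
  | nil => rfl
  | cons r p ih => simp only [List.map_cons, pst]; exact ih

/-- the walk does not change coordinates that are never shown as improving -/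
lemma walk_fix (hA : Valid A) {Y : Finset (Fin n)} {p : List (Rec n)} {h : Past n}
    {a b : Fin n → Bool} (hp : Walk A c h a p b) (hS : ∀ r ∈ p, r.S ⊆ Y) :
    (∀ x, x ∉ Y → b x = a x) ∧ ∀ r ∈ p, ∀ x, x ∉ Y → r.w x = a x := by
  induction p generalizing h a with
  | nil =>
    simp only [Walk] at hp
    subst hp
    simp
  | cons r p ih =>
    simp only [Walk] at hp
    obtain ⟨h1, h2, h3⟩ := hp
    obtain ⟨i1, i2⟩ := ih h3 fun r hr => hS r (List.mem_cons_of_mem _ hr)
    have hm := hS r List.mem_cons_self (hA a (c h.length) r.S h h2)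
    have key : ∀ x, x ∉ Y → flip a (A ((a, c h.length, r.S) :: h)) x = a x := by
      intro x hx
      exact flip_of_ne _ (by rintro rfl; exact hx hm)
    refine ⟨fun x hx => (i1 x hx).trans (key x hx), fun s hs x hx => ?_⟩
    rcases List.mem_cons.1 hs with rfl | hs
    · rw [h1]
    · exact (i2 s hs x hx).trans (key x hx)

/-- one step of wiping reduces the number of records left by the factor `1 - 1/d` -/
lemma filter_card {α : Type*} (L : List α) (P : α → Bool) {d : ℕ}
    (h : L.length ≤ d * (L.filter P).length) :
    d * (L.filter fun x => !P x).length + L.length ≤ d * L.length := by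
  have h1 : L.length = (L.filter P).length + (L.filter fun x => !P x).length :=
    L.length_eq_length_filter_add P
  have h2 : d * L.length = d * (L.filter P).length + d * (L.filter fun x => !P x).length := by
    rw [← mul_add, ← h1]
  omega

/-- double counting of useless directions -/
lemma sum_count (Y : Finset (Fin n)) (L : List (Rec n)) :
    ∑ x ∈ Y, L.countP (fun r => decide (x ∉ r.W)) = (L.map fun r => (Y \ r.W).card).sum := by
  induction L with
  | nil => simp
  | cons r L ih =>
    simp only [List.countP_cons, sum_add_distrib, ih, List.map_cons, List.sum_cons]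
    rw [add_comm]
    congr 1
    rw [← sum_filter, sum_const, smul_eq_mul, mul_one]
    congr 1
    ext x
    simp

lemma exceptional_card {Y : Finset (Fin n)} {L : List (Rec n)} {k K : ℕ} (hk : 1 ≤ k)
    (hL : L ≠ []) (hK : ∀ r ∈ L, (Y \ r.W).card ≤ K) :
    (Y.filter fun x => k * L.length < (k + 1) * L.countP (fun r => decide (x ∉ r.W))).card
      ≤ K + K / k := by
  set E := Y.filter fun x => k * L.length < (k + 1) * L.countP (fun r => decide (x ∉ r.W)) with hE
  have h1 : ∑ x ∈ E, k * L.length ≤ ∑ x ∈ E, (k + 1) * L.countP (fun r => decide (x ∉ r.W)) :=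
    sum_le_sum fun x hx => by rw [hE, mem_filter] at hx; exact hx.2.le
  have h2 : ∑ x ∈ E, (k + 1) * L.countP (fun r => decide (x ∉ r.W))
      ≤ (k + 1) * ∑ x ∈ Y, L.countP (fun r => decide (x ∉ r.W)) := by
    rw [← mul_sum]
    exact Nat.mul_le_mul_left _ (sum_le_sum_of_subset (filter_subset _ _))
  have h3 : (L.map fun r => (Y \ r.W).card).sum ≤ L.length * K := by
    have := List.sum_le_card_nsmul (L.map fun r => (Y \ r.W).card) K (by
      intro x hx
      rw [List.mem_map] at hx
      obtain ⟨r, hr, rfl⟩ := hx
      exact hK r hr)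
    simpa using this
  rw [sum_count] at h2
  rw [sum_const, smul_eq_mul] at h1
  have h4 : 0 < L.length := List.length_pos_of_ne_nil hL
  have h5 : E.card * k * L.length ≤ (k + 1) * K * L.length := by
    calc E.card * k * L.length = E.card * (k * L.length) := by ring
      _ ≤ (k + 1) * (L.length * K) := h1.trans (h2.trans (Nat.mul_le_mul_left _ h3))
      _ = (k + 1) * K * L.length := by ring
  have h6 : E.card * k ≤ (k + 1) * K := Nat.le_of_mul_le_mul_right h5 h4
  have h7 : K + K / k = (k + 1) * K / k := by
    rw [add_mul, one_mul, Nat.mul_add_div (by omega)]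
  rw [h7, Nat.le_div_iff_mul_le (by omega)]
  exact h6

lemma count_three (L : List (Rec n)) (a : Fin n → Bool) (i : Fin n) :
    L.length ≤ (L.filter fun r => decide (i ∈ r.W ∧ flip a i i ≠ r.w i)).length +
      (L.filter fun r => decide (i ∈ r.W ∧ a i ≠ r.w i)).length +
      L.countP (fun r => decide (i ∉ r.W)) := by
  induction L with
  | nil => simp
  | cons r L ih =>
    rw [List.length_cons, List.countP_cons]
    by_cases h1 : i ∈ r.W
    · by_cases h2 : a i = r.w i
      · have h3 : flip a i i ≠ r.w i := by
          rw [flip_self, ← h2]; simp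
        rw [List.filter_cons_of_pos (by simp [h1, h3]), List.length_cons]
        have h4 : (L.filter fun r => decide (i ∈ r.W ∧ a i ≠ r.w i)).length ≤
            ((r :: L).filter fun r => decide (i ∈ r.W ∧ a i ≠ r.w i)).length :=
          (List.Sublist.filter _ (List.sublist_cons_self r L)).length_le
        omega
      · rw [List.filter_cons_of_pos (p := fun r : Rec n => decide (i ∈ r.W ∧ a i ≠ r.w i))
          (by simp [h1, h2]), List.length_cons]
        have h4 : (L.filter fun r => decide (i ∈ r.W ∧ flip a i i ≠ r.w i)).length ≤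
            ((r :: L).filter fun r => decide (i ∈ r.W ∧ flip a i i ≠ r.w i)).length :=
          (List.Sublist.filter _ (List.sublist_cons_self r L)).length_le
        omega
    · have h4 : (L.filter fun r => decide (i ∈ r.W ∧ flip a i i ≠ r.w i)).length ≤
          ((r :: L).filter fun r => decide (i ∈ r.W ∧ flip a i i ≠ r.w i)).length :=
        (List.Sublist.filter _ (List.sublist_cons_self r L)).length_le
      have h5 : (L.filter fun r => decide (i ∈ r.W ∧ a i ≠ r.w i)).length ≤
          ((r :: L).filter fun r => decide (i ∈ r.W ∧ a i ≠ r.w i)).length :=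
        (List.Sublist.filter _ (List.sublist_cons_self r L)).length_le
      simp only [h1, not_false_eq_true, decide_true, if_true]
      omega

/-- **The wiping phase.** The records `L` are wiped in at most `m` steps, by freezing at most `m`
further coordinates. -/
lemma wipe (hA : Valid A) {k K : ℕ} (hk : 1 ≤ k) (m : ℕ) :
    ∀ (Y Z : Finset (Fin n)) (L : List (Rec n)) (h : Past n) (a : Fin n → Bool),
      Z ⊆ Y → (∀ r ∈ L, (Y \ r.W).card ≤ K) →
      L.length * (2 * k + 1) ^ m < (2 * k + 2) ^ m →
      Z.card + (K + K / k) + m < Y.card →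
      ∃ (q : List (Rec n)) (b : Fin n → Bool) (X : Finset (Fin n)),
        Walk A c h a q b ∧ Ext Y q ∧ (∀ r ∈ q, r.S ⊆ Y \ Z) ∧
        (∀ r ∈ q, r.W ⊆ Y ∧ (Y \ r.W).card ≤ Z.card + (K + K / k) + m) ∧
        X ⊆ Y ∧ Z ⊆ X ∧ X.card ≤ Z.card + m ∧ q.length ≤ m ∧
        (∀ r ∈ L, Wipes X b r) ∧ ∀ r ∈ q, Wipes X b r := by
  induction m with
  | zero =>
    intro Y Z L h a hZ hL hc hY
    have hL0 : L = [] := by
      rw [← List.length_eq_zero_iff]
      simpa using hc
    subst hL0
    exact ⟨[], a, Z, rfl, ext_nil Y, by simp, by simp, hZ, Subset.refl _, by simp, by simp,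
      by simp, by simp⟩
  | succ m ih =>
    intro Y Z L h a hZ hL hc hY
    by_cases hL0 : L = []
    · subst hL0
      exact ⟨[], a, Z, rfl, ext_nil Y, by simp, by simp, hZ, Subset.refl _, by simp, by simp,
        by simp, by simp⟩
    -- if a test wipes a large part of `L`, the rest is small enough
    have hstep : ∀ P : Rec n → Bool, L.length ≤ (2 * k + 2) * (L.filter P).length →
        (L.filter fun r => !P r).length * (2 * k + 1) ^ m < (2 * k + 2) ^ m := by
      intro P hP
      have h1 := filter_card L P hP
      have h2 : (2 * k + 2) * (L.filter fun r => !P r).length ≤ (2 * k + 1) * L.length := by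
        nlinarith
      have h3 : (2 * k + 2) * ((L.filter fun r => !P r).length * (2 * k + 1) ^ m)
          < (2 * k + 2) * (2 * k + 2) ^ m := by
        calc (2 * k + 2) * ((L.filter fun r => !P r).length * (2 * k + 1) ^ m)
            = ((2 * k + 2) * (L.filter fun r => !P r).length) * (2 * k + 1) ^ m := by ring
          _ ≤ ((2 * k + 1) * L.length) * (2 * k + 1) ^ m := Nat.mul_le_mul_right _ h2
          _ = L.length * (2 * k + 1) ^ (m + 1) := by ring
          _ < (2 * k + 2) ^ (m + 1) := hc
          _ = (2 * k + 2) * (2 * k + 2) ^ m := by ring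
      exact lt_of_mul_lt_mul_left h3 (Nat.zero_le _)
    by_cases hx : ∃ x ∈ Y, L.length ≤
        (2 * k + 2) * (L.filter fun r => decide (x ∈ r.W ∧ a x ≠ r.w x)).length
    · -- freeze `x` as it is
      obtain ⟨x, hxY, hx⟩ := hx
      have hZ' : insert x Z ⊆ Y := insert_subset hxY hZ
      have hZc : (insert x Z).card ≤ Z.card + 1 := card_insert_le _ _
      obtain ⟨q, b, X, h1, h2, h3, h4, h5, h6, h7, h8, h9, h10⟩ :=
        ih Y (insert x Z) (L.filter fun r => !decide (x ∈ r.W ∧ a x ≠ r.w x)) h a hZ'
          (fun r hr => hL r (List.mem_of_mem_filter hr)) (hstep _ hx) (by omega)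
      refine ⟨q, b, X, h1, h2, fun r hr => ?_, fun r hr => ⟨(h4 r hr).1, ?_⟩, h5,
        (subset_insert _ _).trans h6, by omega, by omega, fun r hr => ?_, h10⟩
      · exact (h3 r hr).trans (sdiff_subset_sdiff (Subset.refl _) (subset_insert _ _))
      · have := (h4 r hr).2
        omega
      · by_cases hr' : x ∈ r.W ∧ a x ≠ r.w x
        · refine ⟨x, h6 (mem_insert_self _ _), hr'.1, ?_⟩
          rw [(walk_fix hA h1 h3).1 x (by simp)]
          exact hr'.2
        · exact h9 r (List.mem_filter.2 ⟨hr, by
            simp only [Bool.not_eq_true', decide_eq_false_iff_not]; exact hr'⟩)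
    · -- let the rule move
      push Not at hx
      set E := Y.filter fun x => k * L.length < (k + 1) * L.countP (fun r => decide (x ∉ r.W))
        with hE
      have hEc : E.card ≤ K + K / k := exceptional_card hk hL0 hL
      set S := Y \ (E ∪ Z) with hS
      have hSc : Y.card ≤ S.card + (E.card + Z.card) := by
        have h1 := card_le_card_sdiff_add_card (s := Y) (t := E ∪ Z)
        rw [← hS] at h1
        have h2 := card_union_le E Z
        omega
      have hSne : S.Nonempty := by
        rw [← card_pos]
        omega
      have hSY : S ⊆ Y := sdiff_subset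
      set i := A ((a, c h.length, S) :: h) with hi
      have hiS : i ∈ S := hA a _ S h hSne
      have hiY : i ∈ Y := hSY hiS
      have hiE : i ∉ E := fun h' => (mem_sdiff.1 hiS).2 (mem_union_left _ h')
      have hiZ : i ∉ Z := fun h' => (mem_sdiff.1 hiS).2 (mem_union_right _ h')
      have hcount : L.length ≤
          (2 * k + 2) * (L.filter fun r => decide (i ∈ r.W ∧ flip a i i ≠ r.w i)).length := by
        have h1 := count_three L a i
        have h2 := hx i hiY
        have h3 : (k + 1) * L.countP (fun r => decide (i ∉ r.W)) ≤ k * L.length := by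
          by_contra h'
          exact hiE (by rw [hE, mem_filter]; exact ⟨hiY, by omega⟩)
        nlinarith
      have hYc : (Y \ {i}).card + 1 = Y.card := by
        rw [sdiff_singleton_eq_erase]
        exact card_erase_add_one hiY
      obtain ⟨q, b, X, h1, h2, h3, h4, h5, h6, h7, h8, h9, h10⟩ :=
        ih (Y \ {i}) Z (L.filter fun r => !decide (i ∈ r.W ∧ flip a i i ≠ r.w i))
          ((a, c h.length, S) :: h) (flip a i)
          (fun z hz => mem_sdiff.2 ⟨hZ hz, by
            rw [mem_singleton]; rintro rfl; exact hiZ hz⟩)
          (fun r hr => (card_le_card (sdiff_subset_sdiff sdiff_subset (Subset.refl _))).trans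
            (hL r (List.mem_of_mem_filter hr)))
          (hstep _ hcount) (by omega)
      have hq' : ∀ r ∈ q, r.S ⊆ Y \ {i} := fun r hr => (h3 r hr).trans sdiff_subset
      have hfix := walk_fix hA h1 hq'
      have hbi : b i = flip a i i := hfix.1 i (by simp)
      have hne : flip a i i ≠ a i := by rw [flip_self]; simp
      have hcl : [(⟨a, S, S⟩ : Rec n)].map (cl {i} (flip a i)) = [⟨a, S, S⟩] := by
        simp only [List.map_cons, List.map_nil, cl]
        congr 2
        rw [filter_true_of_mem]
        rintro x hx ⟨h1, h2⟩
        rw [mem_singleton] at h1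
        subst h1
        exact hne h2
      refine ⟨⟨a, S, S⟩ :: q, b, insert i X, ⟨rfl, hSne, h1⟩, ?_, ?_, ?_, ?_, ?_, ?_, ?_, ?_, ?_⟩
      · have := ext_comp (X := {i}) (b := flip a i) (ext_single Y a S) (by
          intro r hr
          rw [List.mem_singleton] at hr
          subst hr
          exact ⟨i, mem_singleton_self i, hiS, hne⟩) h2 hq' (fun r hr => (h4 r hr).1) (by
          intro r hr x hx
          exact hfix.2 r hr x (by rw [mem_sdiff]; exact fun h' => h'.2 hx))
        rwa [hcl] at this
      · intro r hr
        rcases List.mem_cons.1 hr with rfl | hr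
        · intro x hx
          rw [mem_sdiff]
          exact ⟨hSY hx, fun h' => (mem_sdiff.1 hx).2 (mem_union_right _ h')⟩
        · exact (h3 r hr).trans (sdiff_subset_sdiff sdiff_subset (Subset.refl _))
      · intro r hr
        rcases List.mem_cons.1 hr with rfl | hr
        · refine ⟨hSY, ?_⟩
          change (Y \ S).card ≤ _
          have h11 : Y \ S ⊆ E ∪ Z := by
            intro x hx
            rw [mem_sdiff] at hx
            by_contra h'
            exact hx.2 (mem_sdiff.2 ⟨hx.1, h'⟩)
          have h12 := card_le_card h11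
          have h13 := card_union_le E Z
          omega
        · refine ⟨(h4 r hr).1.trans sdiff_subset, ?_⟩
          have h11 : Y \ r.W ⊆ insert i ((Y \ {i}) \ r.W) := by
            intro x hx
            rw [mem_sdiff] at hx
            rw [mem_insert, mem_sdiff, mem_sdiff, mem_singleton]
            by_cases hxi : x = i
            · exact Or.inl hxi
            · exact Or.inr ⟨⟨hx.1, hxi⟩, hx.2⟩
          have h12 := card_le_card h11
          have h13 := card_insert_le i ((Y \ {i}) \ r.W)
          have h14 := (h4 r hr).2
          omega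
      · exact insert_subset hiY (h5.trans sdiff_subset)
      · exact h6.trans (subset_insert _ _)
      · have := card_insert_le i X
        omega
      · rw [List.length_cons]
        omega
      · intro r hr
        by_cases hr' : i ∈ r.W ∧ flip a i i ≠ r.w i
        · exact ⟨i, mem_insert_self _ _, hr'.1, by rw [hbi]; exact hr'.2⟩
        · obtain ⟨x, hx1, hx2⟩ := h9 r (List.mem_filter.2 ⟨hr, by
            simp only [Bool.not_eq_true', decide_eq_false_iff_not]; exact hr'⟩)
          exact ⟨x, mem_insert_of_mem hx1, hx2⟩
      · intro r hr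
        rcases List.mem_cons.1 hr with rfl | hr
        · exact ⟨i, mem_insert_self _ _, hiS, by rw [hbi]; exact hne⟩
        · obtain ⟨x, hx1, hx2⟩ := h10 r hr
          exact ⟨x, mem_insert_of_mem hx1, hx2⟩

end Pool.Agent.TH70.AR
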